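import Pool.Agent.U457.PS.Low6

/-!
# A Harnack inequality for the `3x+1` map on the integers

The first term below `Y` of the trajectory of a random integer: its law dominates a constant multiple of
the uniform law on the non-multiples of `3` in `[Y/2, Y)`, uniformly in `Y` (part 1). Hence the proportion
of the integers up to `X` in an invariant set, for instance of those which enter a given cycle or any
cycle which is not one of the five known ones, is at least a constant multiple of the proportion up to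
any smaller `Y` (part 2); the basin of a cycle contains at least a proportion
`c * ∑ 1 / |x| ≥ c |p log 2 - k log 3|` of all integers (parts 3 and 4); and the probability that two
random trajectories merge is at least a constant multiple of the one at any smaller scale (part 5).

The input from the library is the quenched lower bound for the number of predecessors
(`Pool.Agent.H320R2.PD`, `Pool.Agent.W26.Ws`), used here with control of all intermediate terms; the
rest is in `Pool/Agent/U457/PS/Low1.lean` to `Low6.lean`.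
-/

set_option autoImplicit false

open Filter Topology

namespace Pool.Agent.Results.MP_edb5be_nt.HarnackInequality

/-- the `3x+1` map on the integers -/
def T (x : ℤ) : ℤ := if x % 2 = 0 then x / 2 else (3 * x + 1) / 2

/-- the number of the integers `n` with `|n| ≤ X` and the property `P` -/
noncomputable def count (X : ℝ) (P : ℤ → Prop) : ℝ := ({n : ℤ | |(n : ℝ)| ≤ X ∧ P n}.ncard : ℝ)

/-- `a` is the first term of absolute value less than `Y` in the trajectory of `n` -/
def FirstBelow (Y : ℝ) (n a : ℤ) : Prop :=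
  ∃ k : ℕ, T^[k] n = a ∧ |(a : ℝ)| < Y ∧ ∀ j < k, Y ≤ |((T^[j] n : ℤ) : ℝ)|

/-- the trajectory of `n` enters `A` -/
def Enters (A : Set ℤ) (n : ℤ) : Prop := ∃ k : ℕ, T^[k] n ∈ A

/-- the trajectories of `m` and `n` merge -/
def Merge (m n : ℤ) : Prop := ∃ i j : ℕ, T^[i] m = T^[j] n

/-- the number of the pairs of nonzero integers of absolute value at most `X` whose trajectories merge -/
noncomputable def pairs (X : ℝ) : ℝ :=
  ({q : ℤ × ℤ | (q.1 ≠ 0 ∧ |(q.1 : ℝ)| ≤ X) ∧ (q.2 ≠ 0 ∧ |(q.2 : ℝ)| ≤ X) ∧ Merge q.1 q.2}.ncard : ℝ)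

open scoped Classical in
/-- the sum of `1 / |x|` over the `x` in `A` with `|x| ≤ R` -/
noncomputable def recip (A : Set ℤ) (R : ℝ) : ℝ :=
  ∑ x ∈ (Finset.Icc (-⌊R⌋) ⌊R⌋).filter (fun x => x ∈ A), 1 / |(x : ℝ)|

/-- `x, T x, ..., T^(p-1) x` is a cycle with `p` elements -/
def IsCycle (x : ℤ) (p : ℕ) : Prop := 0 < p ∧ T^[p] x = x ∧ ∀ q, 0 < q → q < p → T^[q] x ≠ x

/-- the number of the odd elements among `x, T x, ..., T^(p-1) x` -/
def odds (x : ℤ) (p : ℕ) : ℕ := ((Finset.range p).filter (fun i => T^[i] x % 2 = 1)).card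

/-- the elements of the five known cycles -/
def Known : Set ℤ :=
  {1, 2, 0, -1, -5, -7, -10, -17, -25, -37, -55, -82, -41, -61, -91, -136, -68, -34}

/-- the trajectory of `n` enters a cycle which is not one of the five known cycles -/
def OtherCycle (n : ℤ) : Prop := ∃ k p : ℕ, 0 < p ∧ T^[p] (T^[k] n) = T^[k] n ∧ T^[k] n ∉ Known

theorem other_iff (n : ℤ) : OtherCycle n ↔ OtherCycle (T n) := by
  constructor
  · rintro ⟨k, p, hp, h1, h2⟩
    rcases Nat.eq_zero_or_pos k with rfl | hk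
    · obtain ⟨q, rfl⟩ : ∃ q, p = q + 1 := ⟨p - 1, by omega⟩
      have e : T^[q] (T n) = n := by
        rw [← Function.iterate_succ_apply]
        exact h1
      exact ⟨q, q + 1, hp, by rw [e]; exact h1, by rw [e]; exact h2⟩
    · obtain ⟨j, rfl⟩ : ∃ j, k = j + 1 := ⟨k - 1, by omega⟩
      rw [Function.iterate_succ_apply] at h1 h2
      exact ⟨j, p, hp, h1, h2⟩
  · rintro ⟨k, p, hp, h1, h2⟩
    rw [← Function.iterate_succ_apply] at h1 h2
    exact ⟨k + 1, p, hp, h1, h2⟩

/-- There are positive constants `c` and `K` with the following properties.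

(1) MINORIZATION. For all `Y > 0`, all integers `a` with `Y/2 ≤ |a| < Y`, `3 ∤ a`, and all `X ≥ K Y`, at
least `c X / Y` of the integers of absolute value at most `X` have a trajectory whose first term of
absolute value less than `Y` is `a`. More generally for every set `E` the first term is in `E` for at
least `c X / Y` times the number of such `a` in `E`.

(2) HARNACK INEQUALITY. For every set `S` of integers with `n ∈ S ↔ T n ∈ S` and all `1 ≤ Y ≤ X`, the
proportion of nonzero elements of `S` up to `X` is at least `c` times the proportion up to `Y`. For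
every `S` which contains `n` whenever it contains `T n`, the same with the elements of `S` up to `X` and
the elements up to `Y` which are not divisible by `3`. In particular, if Q1 fails and the trajectory of
`m` enters a cycle other than the five known ones, then for all `X ≥ |m|` at least `c X / |m|` of the
integers up to `X` enter such a cycle.

(3) BASINS. Let `T A ⊆ A`, `T` injective on `A`, `0 ∉ A` (for instance a cycle or an unbounded trajectory,
or a union of such that do not merge). Then for all `X ≥ 0` at least `c X` times the sum of `1 / |x|`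
over the elements `|x| ≤ X / K` of `A` of the integers up to `X` enter `A`.

(4) CYCLES. For every cycle other than `{0}`, with `p` elements, `k` of them odd, the sum of `1 / |x|`
over the cycle is at least `|p log 2 - k log 3|`, and for all large `X` at least `c X` times this sum of
the integers up to `X` enter the cycle.

(5) MERGING. For `1 ≤ Y ≤ X` the proportion of the pairs with merging trajectories among the pairs of
nonzero integers up to `X` is at least `c` times the one up to `Y`. -/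
theorem result : ∃ c K : ℝ, 0 < c ∧ 0 < K ∧
    (∀ Y X : ℝ, 0 < Y → K * Y ≤ X →
      (∀ a : ℤ, ¬ (3 : ℤ) ∣ a → Y / 2 ≤ |(a : ℝ)| → |(a : ℝ)| < Y →
        c * X / Y ≤ count X (fun n => FirstBelow Y n a)) ∧
      ∀ E : Set ℤ, c * X / Y * ({a : ℤ | a ∈ E ∧ ¬ (3 : ℤ) ∣ a ∧ Y / 2 ≤ |(a : ℝ)| ∧ |(a : ℝ)| < Y}.ncard : ℝ) ≤
        count X (fun n => ∃ a ∈ E, FirstBelow Y n a)) ∧
    (∀ Y X : ℝ, 1 ≤ Y → Y ≤ X → ∀ S : Set ℤ,
      ((∀ n, n ∈ S ↔ T n ∈ S) →
        c * (count Y (fun n => n ∈ S ∧ n ≠ 0) / Y) ≤ count X (fun n => n ∈ S ∧ n ≠ 0) / X) ∧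
      ((∀ n, T n ∈ S → n ∈ S) →
        c * (count Y (fun n => n ∈ S ∧ ¬ (3 : ℤ) ∣ n) / Y) ≤ count X (fun n => n ∈ S) / X)) ∧
    (∀ m : ℤ, OtherCycle m → ∀ X : ℝ, |(m : ℝ)| ≤ X → c * X / |(m : ℝ)| ≤ count X OtherCycle) ∧
    (∀ A : Set ℤ, (∀ x ∈ A, T x ∈ A) → Set.InjOn T A → (0 : ℤ) ∉ A → ∀ X : ℝ, 0 ≤ X →
      c * X * recip A (X / K) ≤ count X (Enters A)) ∧
    (∀ (x : ℤ) (p : ℕ), x ≠ 0 → IsCycle x p →
      |(p : ℝ) * Real.log 2 - (odds x p : ℝ) * Real.log 3| ≤
        ∑ i ∈ Finset.range p, 1 / |((T^[i] x : ℤ) : ℝ)| ∧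
      ∀ᶠ X : ℝ in atTop, c * X * ∑ i ∈ Finset.range p, 1 / |((T^[i] x : ℤ) : ℝ)| ≤
        count X (Enters {x})) ∧
    (∀ Y X : ℝ, 1 ≤ Y → Y ≤ X → c * (pairs Y / Y ^ 2) ≤ pairs X / X ^ 2) := by
  classical
  obtain ⟨c₁, K₁, hc₁, hK₁, h1⟩ := Pool.Agent.U457.PS.minor_set
  obtain ⟨C₂, hC₂, h2⟩ := Pool.Agent.U457.PS.harnack'
  obtain ⟨C₃, hC₃, h3⟩ := Pool.Agent.U457.PS.harnack_back'
  obtain ⟨c₄, K₄, hc₄, hK₄, h4⟩ := Pool.Agent.U457.PS.basin_low
  obtain ⟨c₅, hc₅, h5⟩ := Pool.Agent.U457.PS.cycle_low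
  obtain ⟨C₆, hC₆, h6⟩ := Pool.Agent.U457.PS.merge_pairs_low
  have hTT : T = Pool.Agent.H499R2.CO.Tz 1 := by
    funext x
    unfold T Pool.Agent.H499R2.CO.Tz
    rfl
  set c : ℝ := min c₁ (min (1 / C₂) (min (1 / C₃) (min c₄ (min c₅ (1 / C₆))))) with hc
  have hC₂0 : 0 < C₂ := by linarith
  have hC₃0 : 0 < C₃ := by linarith
  have hC₆0 : 0 < C₆ := by linarith
  have hc0 : 0 < c := by
    refine lt_min hc₁ (lt_min (by positivity) (lt_min (by positivity) (lt_min hc₄ (lt_min hc₅ ?_))))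
    positivity
  have k1 : c ≤ c₁ := min_le_left _ _
  have k2 : c ≤ 1 / C₂ := (min_le_right _ _).trans (min_le_left _ _)
  have k3 : c ≤ 1 / C₃ := (min_le_right _ _).trans ((min_le_right _ _).trans (min_le_left _ _))
  have k4 : c ≤ c₄ :=
    (min_le_right _ _).trans ((min_le_right _ _).trans ((min_le_right _ _).trans (min_le_left _ _)))
  have k5 : c ≤ c₅ := (min_le_right _ _).trans ((min_le_right _ _).trans ((min_le_right _ _).trans
    ((min_le_right _ _).trans (min_le_left _ _))))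
  have k6 : c ≤ 1 / C₆ := (min_le_right _ _).trans ((min_le_right _ _).trans ((min_le_right _ _).trans
    ((min_le_right _ _).trans (min_le_right _ _))))
  have hinvC : ∀ {C u v : ℝ}, 0 < C → c ≤ 1 / C → 0 ≤ u → u ≤ C * v → c * u ≤ v := by
    intro C u v hC hcC hu huv
    have g1 : c * u ≤ 1 / C * u := mul_le_mul_of_nonneg_right hcC hu
    have g2 : 1 / C * u ≤ v := by
      rw [one_div, inv_mul_le_iff₀ hC]; exact huv
    exact g1.trans g2
  have hsets : ∀ (Y X : ℝ), 0 < Y → max K₁ K₄ * Y ≤ X → ∀ E : Set ℤ,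
      c * X / Y * ({a : ℤ | a ∈ E ∧ ¬ (3 : ℤ) ∣ a ∧ Y / 2 ≤ |(a : ℝ)| ∧ |(a : ℝ)| < Y}.ncard : ℝ) ≤
        count X (fun n => ∃ a ∈ E, FirstBelow Y n a) := by
    intro Y X hY hX E
    have hX' : K₁ * Y ≤ X := (mul_le_mul_of_nonneg_right (le_max_left _ _) hY.le).trans hX
    have hX0 : 0 < X := lt_of_lt_of_le (by positivity) hX'
    refine le_trans (mul_le_mul_of_nonneg_right (div_le_div_of_nonneg_right
      (mul_le_mul_of_nonneg_right k1 hX0.le) hY.le) (Nat.cast_nonneg _)) ?_
    refine (h1 E Y X hY hX').trans ?_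
    unfold count
    have hsub : {x : ℤ | |(x : ℝ)| ≤ X ∧ x ∈ Pool.Agent.U457.PS.SZk 1 Y E} ⊆
        {n : ℤ | |(n : ℝ)| ≤ X ∧ ∃ a ∈ E, FirstBelow Y n a} := by
      rintro x ⟨g1, g2⟩
      rw [Pool.Agent.U457.PS.mem_SZk, ← hTT] at g2
      obtain ⟨_, n, g3, g4, g5⟩ := g2
      exact ⟨g1, _, g5, n, rfl, g4, g3⟩
    exact_mod_cast Set.ncard_le_ncard hsub (Pool.Agent.U457.PS.fin_abs X _)
  have hharn : ∀ S : Set ℤ, (∀ n, n ∈ S ↔ T n ∈ S) → ∀ Y X : ℝ, 1 ≤ Y → Y ≤ X →
      c * (count Y (fun n => n ∈ S ∧ n ≠ 0) / Y) ≤ count X (fun n => n ∈ S ∧ n ≠ 0) / X := by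
    intro S hS Y X hY hYX
    have hY0 : 0 < Y := by linarith
    rw [hTT] at hS
    exact hinvC hC₂0 k2 (div_nonneg (Nat.cast_nonneg _) hY0.le) (h2 S hS Y X hY hYX)
  refine ⟨c, max K₁ K₄, hc0, lt_max_of_lt_left (by linarith), ?_, ?_, ?_, ?_, ?_, ?_⟩
  · intro Y X hY hX
    refine ⟨?_, hsets Y X hY hX⟩
    intro a ha ha1 ha2
    have g := hsets Y X hY hX {a}
    have e : {b : ℤ | b ∈ ({a} : Set ℤ) ∧ ¬ (3 : ℤ) ∣ b ∧ Y / 2 ≤ |(b : ℝ)| ∧ |(b : ℝ)| < Y} = {a} := by
      ext b
      constructor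
      · rintro ⟨g1, _⟩; exact g1
      · rintro rfl; exact ⟨rfl, ha, ha1, ha2⟩
    rw [e, Set.ncard_singleton, Nat.cast_one, mul_one] at g
    refine g.trans (le_of_eq ?_)
    unfold count
    congr 2
    ext n
    simp
  · intro Y X hY hYX S
    have hY0 : 0 < Y := by linarith
    refine ⟨fun hS => hharn S hS Y X hY hYX, fun hS => ?_⟩
    rw [hTT] at hS
    exact hinvC hC₃0 k3 (div_nonneg (Nat.cast_nonneg _) hY0.le) (h3 S hS Y X hY hYX)
  · intro m hm X hX
    have hm0 : m ≠ 0 := by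
      rintro rfl
      obtain ⟨k, p, _, _, h⟩ := hm
      have e : T^[k] 0 = 0 := Function.iterate_fixed (by unfold T; norm_num) k
      rw [e] at h
      exact h (by simp [Known])
    have hm1 : 1 ≤ |(m : ℝ)| := by
      have : 1 ≤ |m| := Int.one_le_abs hm0
      exact_mod_cast this
    have hX0 : 0 < X := by linarith
    have g := hharn {n | OtherCycle n} (fun n => other_iff n) |(m : ℝ)| X hm1 hX
    have g1 : 1 ≤ count |(m : ℝ)| (fun n => n ∈ {n | OtherCycle n} ∧ n ≠ 0) := by
      unfold count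
      have : 0 < {n : ℤ | |(n : ℝ)| ≤ |(m : ℝ)| ∧ n ∈ {n | OtherCycle n} ∧ n ≠ 0}.ncard := by
        rw [Set.ncard_pos (Pool.Agent.U457.PS.fin_abs _ _)]
        exact ⟨m, le_rfl, hm, hm0⟩
      exact_mod_cast this
    have g2 : count X (fun n => n ∈ {n | OtherCycle n} ∧ n ≠ 0) ≤ count X OtherCycle := by
      unfold count
      have hsub : {n : ℤ | |(n : ℝ)| ≤ X ∧ n ∈ {n | OtherCycle n} ∧ n ≠ 0} ⊆
          {n : ℤ | |(n : ℝ)| ≤ X ∧ OtherCycle n} := by
        rintro n ⟨f1, f2, _⟩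
        exact ⟨f1, f2⟩
      exact_mod_cast Set.ncard_le_ncard hsub (Pool.Agent.U457.PS.fin_abs X _)
    have hm0' : 0 < |(m : ℝ)| := by linarith
    have g3 : c * (1 / |(m : ℝ)|) ≤ count X OtherCycle / X := by
      refine le_trans ?_ (g.trans (div_le_div_of_nonneg_right g2 hX0.le))
      exact mul_le_mul_of_nonneg_left (div_le_div_of_nonneg_right g1 hm0'.le) hc0.le
    rw [le_div_iff₀ hX0] at g3
    calc c * X / |(m : ℝ)| = c * (1 / |(m : ℝ)|) * X := by ring
      _ ≤ _ := g3
  · intro A hA hinj h0 X hX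
    rw [hTT] at hA hinj
    have hK₄0 : 0 < K₄ := by linarith
    have g1 := h4 A hA hinj h0 X hX
    have g2 : recip A (X / max K₁ K₄) ≤
        ∑ x ∈ Pool.Agent.U457.PS.FA A (X / K₄), 1 / |(x : ℝ)| := by
      unfold recip
      apply Finset.sum_le_sum_of_subset_of_nonneg
      · intro x hx
        rw [Finset.mem_filter, Finset.mem_Icc, ← abs_le, Int.le_floor, Int.cast_abs] at hx
        rw [Pool.Agent.U457.PS.mem_FA]
        refine ⟨hx.1.trans ?_, hx.2⟩
        exact div_le_div_of_nonneg_left hX hK₄0 (le_max_right _ _)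
      · intro x _ _
        positivity
    have g3 : 0 ≤ recip A (X / max K₁ K₄) := by
      unfold recip
      exact Finset.sum_nonneg fun x _ => by positivity
    calc c * X * recip A (X / max K₁ K₄)
        ≤ c₄ * X * ∑ x ∈ Pool.Agent.U457.PS.FA A (X / K₄), 1 / |(x : ℝ)| :=
          mul_le_mul (mul_le_mul_of_nonneg_right k4 hX) g2 g3 (by positivity)
      _ ≤ _ := by
          refine g1.trans (le_of_eq ?_)
          unfold Pool.Agent.U457.PS.NB count Enters Pool.Agent.U457.PS.Ent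
          rw [hTT]
          rfl
  · intro x p hx hp
    obtain ⟨hp0, hpx, hmin⟩ := hp
    rw [hTT] at hpx hmin
    refine ⟨?_, ?_⟩
    · have := Pool.Agent.U457.PS.cycle_form hx hpx
      unfold odds
      rw [hTT]
      exact this
    · filter_upwards [h5 x p hx hp0 hpx hmin, eventually_ge_atTop 0] with X hX hX0
      have g0 : 0 ≤ ∑ i ∈ Finset.range p, 1 / |((T^[i] x : ℤ) : ℝ)| :=
        Finset.sum_nonneg fun i _ => by positivity
      refine le_trans (mul_le_mul_of_nonneg_right (mul_le_mul_of_nonneg_right k5 hX0) g0) ?_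
      rw [hTT]
      refine hX.trans (le_of_eq ?_)
      unfold Pool.Agent.U457.PS.ctX count Enters
      rw [hTT]
      rfl
  · intro Y X hY hYX
    have hY0 : 0 < Y := by linarith
    have g := h6 Y X hY hYX
    have e : ∀ Z : ℝ, pairs Z = ({q : ℤ × ℤ | (q.1 ≠ 0 ∧ |(q.1 : ℝ)| ≤ Z) ∧
        (q.2 ≠ 0 ∧ |(q.2 : ℝ)| ≤ Z) ∧ ∃ i j : ℕ, (Pool.Agent.H499R2.CO.Tz 1)^[i] q.1 =
          (Pool.Agent.H499R2.CO.Tz 1)^[j] q.2}.ncard : ℝ) := by
      intro Z
      unfold pairs Merge
      rw [hTT]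
    rw [← e, ← e] at g
    exact hinvC hC₆0 k6 (div_nonneg (Nat.cast_nonneg _) (by positivity)) g

end Pool.Agent.Results.MP_edb5be_nt.HarnackInequality
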