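import Pool.Agent.U29.DZ.Main2

set_option autoImplicit false

/-!
# Perturbations of generalized Collatz maps on a set of density zero

`T(x) = (m_j x - r_j) / d` for `x ≡ j mod d`, `m_j > 0` prime to `d`, with exact division and
`∏ m_j < d ^ d`: the contracting relatively prime generalized Collatz maps of Matthews, for example
`x/2`, `(3x+1)/2` on the integers. The conjecture: there are only finitely many cycles and every
orbit reaches one of them. For the `3x+1` map: the cycles are five known ones.

Here `T_ω(x) = T(x) + ω_x` with independent perturbations `0 ≤ ω_x ≤ h(x)`, where `h → ∞`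
arbitrarily slowly, and the probability of `ω_x ≠ 0` tends to `0` as `|x| → ∞`; so `T_ω` differs
from `T` only on a set of density zero, and there by at most `h(x)`. Almost surely `T_ω` has only
finitely many cycles and every orbit reaches one of them.

The perturbations are not designed for the map: the law of `ω_x` is one of a sequence `ν_0, ν_1, …` of
laws on `{0, 1, 2, …}` with non-increasing weights, its index `i(x)` is a non-decreasing function of
`|x|`, and `i(x) ≤ h(x)`, so the laws change arbitrarily rarely. (With laws chosen for the map, for example
`ω_x` such that `T(x) + ω_x` is divisible by a high power of `2`, one could force descents.)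

Proof. In shells `X_j ≤ |x| < X_(j+1)` with thresholds that grow very fast the laws are `ν_j`, a slowly
varying sequence with `ν_j {0} → 1`. In the window `[X_j, X_(j+2))` the annealed chain satisfies the
estimate `Q ^ L |x| ^ θ ≤ C λ ^ L |x| ^ θ` (average over arithmetic progressions, after a perturbation the
next `K` residues are equidistributed; between perturbations nothing is known). So for all but
finitely many `x` the orbit of `x` repeats or falls below its shell within `c_j log |x|` steps. A
cycle with smallest modulus `s` in the window has more than `A log s` elements, for every `A` and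
large `s`, by Ridout's theorem.

Parts of this run: helpers 29 (statements, assembly), 187, 394, 454, 580, 689, 694, 770, 774, 851,
857, 858, 978; on top of project RP (helper762; 97, 111, 165, 511, 594, 891, 898, 981) and project CY
(60, 97, 461, 605, 803).
-/

namespace Pool.Agent.Results.MP_edb5be_nt.PerturbationsOfDensityZero

open Finset MeasureTheory Filter Pool.Agent.U762.RP

/-- Perturbations of a contracting relatively prime generalized Collatz map on a set of density
zero, of a size that tends to infinity arbitrarily slowly, by laws with non-increasing weights which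
change arbitrarily rarely: almost surely there are only finitely many cycles, and every orbit
reaches one of them. -/
theorem result (d : ℕ) (m r : ℤ → ℤ) (hT : Rel d m r)
    (hprod : (∏ j ∈ range d, m (j : ℤ)) < (d : ℤ) ^ d) (h : ℤ → ℕ) (hh : Tendsto h cofinite atTop) :
    ∃ (ν : ℕ → Measure ℤ) (i : ℤ → ℕ), (∀ j, IsProbabilityMeasure (ν j)) ∧
      (∀ j, ν j {u : ℤ | u < 0} = 0) ∧
      (∀ (j : ℕ) (u : ℤ), 0 ≤ u → (ν j).real {u + 1} ≤ (ν j).real {u}) ∧
      Tendsto (fun j => (ν j).real {0}) atTop (nhds 1) ∧
      Tendsto i cofinite atTop ∧ (∀ x y : ℤ, |x| ≤ |y| → i x ≤ i y) ∧ (∀ x, i x ≤ h x) ∧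
      ∀ᵐ ω ∂(Measure.infinitePi fun x => ν (i x)), (∀ x : ℤ, 0 ≤ ω x ∧ ω x ≤ (h x : ℤ)) ∧
        Tendsto (fun N : ℕ => ({x : ℤ | |x| ≤ (N : ℤ) ∧ ω x ≠ 0}.ncard : ℝ) / N) atTop (nhds 0) ∧
        (Function.periodicPts (stp d m r ω)).Finite ∧
        ∀ x : ℤ, ∃ k : ℕ, (stp d m r ω)^[k] x ∈ Function.periodicPts (stp d m r ω) :=
  Pool.Agent.U29.DZ.main2 d m r hT hprod h hh

end Pool.Agent.Results.MP_edb5be_nt.PerturbationsOfDensityZero
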