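import Pool.Agent.U339.SI.Pressure
import Pool.Agent.U339.SI.Length

set_option autoImplicit false

/-!
# S-integral cycles of the 3x+1 map

The map `T` extends to the rational numbers with odd denominator, where it has exactly `2^p` points
with `T^p x = x`. The integers of the problem are the points with denominator one. Let `S` be a finite
set of primes (or the empty set) and `ε > 0`.

* The part of the denominator of a point `x = T^p x` which is composed of the primes in `S` is at most
  `K 2^(ε p)`.
* At most `K 2^(ε p) D` points `x = T^p x` have a denominator whose part prime to `S` is at most `D`. So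
  the ring of the `S`-integers contains only `2^(o(p))` of the `2^p` points. In other words, the
  infinitely many maps `n / 2`, `(3 n + k) / 2` with `k` composed of the primes in `S` have TOGETHER at
  most `K 2^(ε p)` primitive points of period `p`.
* The number of the elements of the primitive cycles of these maps, divided by `log k`, tends to infinity
  with `k`. (For general `k` cycles with a constant times `log k` elements are frequent.)
* For all but `K 2^((1 - δ) p)` of the points `x = T^p x` the denominator is less than `2^p` and its part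
  prime to `S` is at least `2^((1 - ε) p)`, and the sums of the powers `-s` of these parts grow
  like `2^(max(0, 1 - s) p)`.

Method. The denominator is constant along the cycle and divides `2^p - 3^o`. By the lower bound for
`|p log 2 - o log 3|` (starting library, `H319R2.measure`) a cycle has an element of absolute value at
most `A p^14`, so there are at most `A p^15 d` points with denominator `d`. By Ridout's theorem (starting
library, `W180.RR.ridout`) the part of `2^p - 3^o` composed of the primes in `S` is at most `K 2^(ε p)`,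
and `2^p - 3^o` has at most `K 2^(ε p)` divisors.
-/

namespace Pool.Agent.Results.MP_edb5be_nt.SIntegralCycles

open Filter Topology

/-- The `3x+1` map on the rational numbers (used for odd denominators): `x / 2` if the numerator of `x`
is even, and `(3 x + 1) / 2` if it is odd. -/
def T (x : ℚ) : ℚ := if Even x.num then x / 2 else (3 * x + 1) / 2

/-- The rational numbers `x` with odd denominator and `T^p x = x`. -/
def periodic (p : ℕ) : Set ℚ := {x | Odd x.den ∧ T^[p] x = x}

/-- `d` is composed of the primes in `S`. -/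
def Composed (S : Finset ℕ) (d : ℕ) : Prop := ∀ q : ℕ, q.Prime → q ∣ d → q ∈ S

/-- The part of the denominator of `x` which is prime to `S`: the product of its prime powers
`q ^ (v_q)`, `q` not in `S`. -/
def freeDen (S : Finset ℕ) (x : ℚ) : ℕ :=
  ∏ q ∈ x.den.primeFactors \ S, q ^ x.den.factorization q

/-- The `3x+k` map on the integers: `n / 2` if `n` is even, and `(3 n + k) / 2` if `n` is odd. -/
def Tk (k n : ℤ) : ℤ := if Even n then n / 2 else (3 * n + k) / 2

/-- The pairs `(n, k)`, `k ≥ 1` odd and composed of the primes in `S`, such that `n` is prime to `k` and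
`T_k^p n = n`. -/
def primitivePoints (S : Finset ℕ) (p : ℕ) : Set (ℤ × ℕ) :=
  {t | Composed S t.2 ∧ Odd t.2 ∧ IsCoprime t.1 (t.2 : ℤ) ∧ (Tk t.2)^[p] t.1 = t.1}

/-- **S-integral cycles of the 3x+1 map.** Let `S` be a finite set.
(1) For `p ≥ 1` there are exactly `2^p` rational numbers `x` with odd denominator and `T^p x = x`.
(2) For every `ε > 0` there is `K` such that the denominator of each of them is at most `K 2^(ε p)` times
its part prime to `S`, for all `p ≥ 1`.
(3) For every `ε > 0` there is `K` such that for all `p ≥ 1`, `D ≥ 1` at most `K 2^(ε p) D` of them have a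
denominator whose part prime to `S` is at most `D`.
(4) For every `ε > 0` there is `K` such that for all `p ≥ 1` the maps `3x+k` with `k` composed of the
primes in `S` have together at most `K 2^(ε p)` primitive points of period `p`.
(5) For every `A` and every large `k` composed of the primes in `S` all primitive cycles of the
`3x+k` map have at least `A log k` elements.
(6) For every `ε > 0` there are `δ > 0` and `K` such that for all `p ≥ 1`, apart from at most
`K 2^((1-δ) p)` exceptions, the denominator of an `x` as in (1) is less than `2^p` and its part prime to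
`S` is at least `2^((1-ε) p)`.
(7) For all real `s ≥ 0`, `p⁻¹ log₂` of the sum of the powers with exponent `-s` of the parts prime to
`S` of the denominators of the `x` in (1) tends to `max (0, 1 - s)`. -/
theorem result (S : Finset ℕ) :
    (∀ p : ℕ, 1 ≤ p → (periodic p).Finite ∧ (periodic p).ncard = 2 ^ p) ∧
    (∀ ε : ℝ, 0 < ε → ∃ K : ℝ, ∀ p : ℕ, 1 ≤ p → ∀ x ∈ periodic p,
      (x.den : ℝ) ≤ K * (2 : ℝ) ^ (ε * p) * freeDen S x) ∧
    (∀ ε : ℝ, 0 < ε → ∃ K : ℝ, ∀ p : ℕ, 1 ≤ p → ∀ D : ℝ, 1 ≤ D →
      ({x ∈ periodic p | (freeDen S x : ℝ) ≤ D}.ncard : ℝ) ≤ K * (2 : ℝ) ^ (ε * p) * D) ∧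
    (∀ ε : ℝ, 0 < ε → ∃ K : ℝ, ∀ p : ℕ, 1 ≤ p →
      (primitivePoints S p).Finite ∧ ((primitivePoints S p).ncard : ℝ) ≤ K * (2 : ℝ) ^ (ε * p)) ∧
    (∀ A : ℝ, ∃ k₀ : ℕ, ∀ k : ℕ, k₀ ≤ k → Composed S k → Odd k → ∀ (n : ℤ) (p : ℕ),
      IsCoprime n (k : ℤ) → 1 ≤ p → (Tk k)^[p] n = n → A * Real.log k ≤ p) ∧
    (∀ ε : ℝ, 0 < ε → ∃ δ K : ℝ, 0 < δ ∧ ∀ p : ℕ, 1 ≤ p →
      ({x ∈ periodic p | ¬ ((2 : ℝ) ^ ((1 - ε) * p) ≤ freeDen S x ∧ x.den < 2 ^ p)}.ncard : ℝ) ≤
        K * (2 : ℝ) ^ ((1 - δ) * p)) ∧
    (∀ s : ℝ, 0 ≤ s → Tendsto (fun p : ℕ =>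
      Real.logb 2 (∑ᶠ x ∈ periodic p, (freeDen S x : ℝ) ^ (-s)) / p) atTop (𝓝 (max 0 (1 - s)))) := by
  classical
  have hset : ∀ (p : ℕ) (hp : 1 ≤ p), periodic p = ((Pool.Agent.U339.SI.per hp : Finset ℚ) : Set ℚ) := by
    intro p hp
    ext x
    rw [Finset.mem_coe, Pool.Agent.U339.SI.mem_per]
    rfl
  have hsub : ∀ (p : ℕ) (hp : 1 ≤ p) (P : ℚ → Prop) [DecidablePred P],
      {x ∈ periodic p | P x} = (((Pool.Agent.U339.SI.per hp).filter P : Finset ℚ) : Set ℚ) := by
    intro p hp P _
    ext x
    rw [Finset.mem_coe, Finset.mem_filter, Pool.Agent.U339.SI.mem_per]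
    rfl
  refine ⟨?_, ?_, ?_, ?_, ?_, ?_, ?_⟩
  · intro p hp
    rw [hset p hp]
    refine ⟨Finset.finite_toSet _, ?_⟩
    rw [Set.ncard_coe_finset, Pool.Agent.U339.SI.card_per]
  · intro ε hε
    obtain ⟨K, -, h⟩ := Pool.Agent.U339.SI.den_bound S ε hε
    exact ⟨K, fun p hp x hx => h p hp x hx⟩
  · intro ε hε
    obtain ⟨K, -, h⟩ := Pool.Agent.U339.SI.count S (ε * Real.log 2)
      (mul_pos hε (Real.log_pos (by norm_num)))
    refine ⟨K, fun p hp D hD => ?_⟩
    have h1 := h p hp D hD
    rw [show Real.exp (ε * Real.log 2 * p) = (2 : ℝ) ^ (ε * p) by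
      rw [Real.rpow_def_of_pos (by norm_num)]; congr 1; ring] at h1
    rw [hsub p hp, Set.ncard_coe_finset]
    exact h1
  · intro ε hε
    exact Pool.Agent.U339.SI.maps S ε hε
  · intro A
    exact Pool.Agent.U339.SI.long_cycles S A
  · intro ε hε
    obtain ⟨δ, K, hδ, -, h⟩ := Pool.Agent.U339.SI.typical S ε hε
    refine ⟨δ, K, hδ, fun p hp => ?_⟩
    rw [hsub p hp, Set.ncard_coe_finset]
    exact h p hp
  · intro s hs
    refine Pool.Agent.U339.SI.pressure S s hs _ fun p hp => ?_
    rw [hset p hp, finsum_mem_coe_finset]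
    rfl

end Pool.Agent.Results.MP_edb5be_nt.SIntegralCycles
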