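import Mathlib
import Pool.Agent.U773.SP.Traj31

/-!
# Sparse integers in the cycles of the 3x+1 map

Let `S` be a finite set of primes which does not contain both `2` and `3`, and `r ≥ 0`. For a real
number `M ≥ 1` an integer is called short if it is a sum of `r` terms `a u`, where the `a` are
integers with `|a| ≤ M` and the `u` are `S`-units (nonzero rational numbers composed of the primes
of `S`). Examples are the integers with at most `r` nonzero digits in a base which is not divisible
by `6`, the sums and differences of `r` powers of two, and the integers near a multiple of a large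
`S`-unit. There is `C` (depending on `S` and `r` only) such that

(1) if `x` and `T^j x` are short and more than `C (1 + log M)` of the `j` steps are odd, then
`log |x| ≤ C (1 + j + log M)`: the short terms of a trajectory are far apart;

(2) every cycle (positive or negative) with `p` elements has at most
`C M ^ (r + 1) p ^ (1 - 1 / (r s + 1))` short odd elements, where `s = |S|`;

(3) if `2` is not in `S`, this holds for all short elements.

For the integers with at most `r` nonzero digits in a base `b` which is not divisible by `6` the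
exponent is `1 - 1 / (r + 1)`.

For `2, 3` in `S` (1) is false: `x = 2 ^ j u - 1`, `T^j x = 3 ^ j u - 1`.

Method. `3^o x + B = 2^j y` with `0 ≤ B ≤ 5^j` is a relation between `S`-units. By the `S`-adic
subspace theorem (in the form of the independence of germs of `S`-units over the field of germs of
negligible height, `Pool.Agent.TH551.SU`) the terms of `x` and `y` of large height satisfy
`3^o x' = 2^j y'`; in a second scale, where only the coefficients are negligible, this relation
between units contradicts the valuation at `3` (or `2`), which is not in `S`. For the count the same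
method shows that a short integer `x` is a short sum of `S`-units of height at most a power of `|x|`,
so that there are few short integers.
-/

set_option autoImplicit false

namespace Pool.Agent.Results.MP_edb5be_nt.SparseElements

open Finset Pool.Agent.U773.SP Pool.Agent.U773.SP.C31

open scoped Classical

theorem result :
    (∀ (S : Finset ℕ) (r : ℕ), (2 ∉ S ∨ 3 ∉ S) → ∃ C : ℝ, 0 < C ∧
      (∀ (x : ℤ) (j : ℕ) (M : ℝ), 1 ≤ M → Short S r M x → Short S r M (T^[j] x) →
        C * (1 + Real.log M) < oddTerms x j →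
          Real.log |(x : ℝ)| ≤ C * (1 + j + Real.log M)) ∧
      (∀ Z : Finset ℤ, IsCycle Z → ∀ M : ℝ, 1 ≤ M →
        ((Z.filter (fun x => x % 2 = 1 ∧ Short S r M x)).card : ℝ) ≤
          C * M ^ (r + 1) *
            (Z.card : ℝ) ^ (((r * S.card : ℕ) : ℝ) / ((r * S.card : ℕ) + 1))) ∧
      (2 ∉ S → ∀ Z : Finset ℤ, IsCycle Z → ∀ M : ℝ, 1 ≤ M →
        ((Z.filter (fun x => Short S r M x)).card : ℝ) ≤
          C * M ^ (r + 1) *
            (Z.card : ℝ) ^ (((r * S.card : ℕ) : ℝ) / ((r * S.card : ℕ) + 1)))) ∧
    (∀ b r : ℕ, 2 ≤ b → ¬ 6 ∣ b → ∃ C : ℝ, 0 < C ∧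
      (∀ Z : Finset ℤ, IsCycle Z →
        ((Z.filter (fun x => x % 2 = 1 ∧ nonzeroDigits b x ≤ r)).card : ℝ) ≤
          C * (Z.card : ℝ) ^ ((r : ℝ) / (r + 1))) ∧
      (b % 2 = 1 → ∀ Z : Finset ℤ, IsCycle Z →
        ((Z.filter (fun x => nonzeroDigits b x ≤ r)).card : ℝ) ≤
          C * (Z.card : ℝ) ^ ((r : ℝ) / (r + 1)))) := by
  constructor
  · intro S r hS
    obtain ⟨C1, hC1, h1⟩ := gap31 S r hS
    obtain ⟨C2, hC2, h2⟩ := odd_short S r hS
    obtain ⟨C3, hC3, h3⟩ : ∃ C : ℝ, 0 < C ∧ (2 ∉ S → ∀ (x : ℤ) (n : ℕ) (M : ℝ), 1 ≤ M → 1 ≤ n →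
      (∀ i < n, ∀ k < n, T^[i] x = T^[k] x → i = k) →
      (((range n).filter (fun i => Short S r M (T^[i] x))).card : ℝ) ≤
        C * M ^ (r + 1) * (n : ℝ) ^ (((r * S.card : ℕ) : ℝ) / ((r * S.card : ℕ) + 1))) := by
      by_cases h : 2 ∉ S
      · obtain ⟨C, hC, h3⟩ := all_short S r h
        exact ⟨C, hC, fun _ => h3⟩
      · exact ⟨1, one_pos, fun h' => absurd h' h⟩
    refine ⟨C1 + C2 + C3, by linarith, ?_, ?_, ?_⟩
    · intro x j M hM hx hy ho
      have hl := Real.log_nonneg hM
      have hj : (0 : ℝ) ≤ j := Nat.cast_nonneg _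
      refine (h1 x j M hM hx hy (lt_of_le_of_lt ?_ ho)).trans ?_
      · gcongr
        linarith
      · gcongr
        linarith
    · intro Z hZ M hM
      have h4 := cyc_count (fun y => y % 2 = 1 ∧ Short S r M y) (fun n => C2 * M ^ (r + 1) *
        (n : ℝ) ^ (((r * S.card : ℕ) : ℝ) / ((r * S.card : ℕ) + 1)))
        (fun x n hn hinj => (card_inst' _ _ _ _).trans_le (h2 x n M hM hn hinj)) hZ
      refine ((card_inst' _ _ _ _).trans_le h4).trans ?_
      gcongr
      linarith
    · intro h2S Z hZ M hM
      have h4 := cyc_count (fun y => Short S r M y) (fun n => C3 * M ^ (r + 1) *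
        (n : ℝ) ^ (((r * S.card : ℕ) : ℝ) / ((r * S.card : ℕ) + 1)))
        (fun x n hn hinj => (card_inst' _ _ _ _).trans_le (h3 h2S x n M hM hn hinj)) hZ
      refine ((card_inst' _ _ _ _).trans_le h4).trans ?_
      gcongr
      linarith
  · intro b r hb h6
    obtain ⟨C1, hC1, h1⟩ := odd_digits b r hb h6
    obtain ⟨C2, hC2, h2⟩ : ∃ C : ℝ, 0 < C ∧ (b % 2 = 1 → ∀ (x : ℤ) (n : ℕ), 1 ≤ n →
        (∀ i < n, ∀ k < n, T^[i] x = T^[k] x → i = k) →
        (((range n).filter (fun i => nonzeroDigits b (T^[i] x) ≤ r)).card : ℝ) ≤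
          C * (n : ℝ) ^ ((r : ℝ) / (r + 1))) := by
      by_cases h : b % 2 = 1
      · obtain ⟨C, hC, h3⟩ := all_digits b r hb h
        exact ⟨C, hC, fun _ => h3⟩
      · exact ⟨1, one_pos, fun h' => absurd h' h⟩
    refine ⟨C1 + C2, by linarith, ?_, ?_⟩
    · intro Z hZ
      have h4 := cyc_count (fun y => y % 2 = 1 ∧ nonzeroDigits b y ≤ r)
        (fun n => C1 * (n : ℝ) ^ ((r : ℝ) / (r + 1)))
        (fun x n hn hinj => (card_inst' _ _ _ _).trans_le (h1 x n hn hinj)) hZ
      refine ((card_inst' _ _ _ _).trans_le h4).trans ?_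
      gcongr
      linarith
    · intro hb2 Z hZ
      have h4 := cyc_count (fun y => nonzeroDigits b y ≤ r)
        (fun n => C2 * (n : ℝ) ^ ((r : ℝ) / (r + 1)))
        (fun x n hn hinj => (card_inst' _ _ _ _).trans_le (h2 hb2 x n hn hinj)) hZ
      refine ((card_inst' _ _ _ _).trans_le h4).trans ?_
      gcongr
      linarith

end Pool.Agent.Results.MP_edb5be_nt.SparseElements
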